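import Pool.Agent.R60.SW

/-!
# The maximum strong arboricity of graphs with given colouring number

Every graph satisfies `ζ(G) ≤ 2 (col(G) - 1)`, and for every `r ≥ 3` this bound is attained by a
graph with `col(G) = r`. Since `2 (r - 1) > r` for `r ≥ 3`, the inequality `ζ(G) ≤ col(G)` fails.
-/

set_option autoImplicit false

namespace Pool.Agent.Results.MP_5ca9a4_co.SharpBound

open Pool.Agent.R60.SW

/-- Every finite graph satisfies `ζ(G) ≤ 2 (col(G) - 1)`, and for every `r ≥ 3` there is a finite
graph `G` with `col(G) = r` and `ζ(G) = 2 (r - 1)`, which is greater than `r`. -/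
theorem result :
    (∀ (V : Type) [Finite V] (G : SimpleGraph V), strongArb G ≤ 2 * (colNumber G - 1)) ∧
    ∀ r : ℕ, 3 ≤ r → ∃ (V : Type) (_ : Finite V) (G : SimpleGraph V),
      colNumber G = r ∧ strongArb G = 2 * (r - 1) :=
  ⟨fun _ _ G => strongArb_le G, exact⟩

end Pool.Agent.Results.MP_5ca9a4_co.SharpBound
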